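import Pool.Agent.H75.OM.TC

/-!
# Small circuits see only the short strings of the oracle (LOH)
-/

set_option autoImplicit false

namespace Pool.Agent.H17.OMN

open Pool.Agent.H6.NB Pool.Agent.H70.OQ Pool.Agent.H70.EH Pool.Agent.H70.EI Pool.Agent.H78.XQ
open Pool.Agent.H75.OM

lemma crun_congr (s : ℕ) (O O' : List Bool → Bool) (h : ∀ w, w.length ≤ s → O w = O' w) :
    ∀ (C : Circ) (v : List Bool), csize C ≤ s → crun O C v = crun O' C v := by
  intro C
  induction C with
  | nil => intro v _; rfl
  | cons g C ih =>
    intro v hC
    have h1 : g.size + csize C ≤ s := by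
      have : csize (g :: C) = g.size + csize C := by
        unfold csize
        rw [List.map_cons, List.sum_cons]
      rw [← this]
      exact hC
    have h2 : g.val O v = g.val O' v := by
      cases g with
      | nand i j => rfl
      | ask l =>
        change O (l.map fun i => v.getD i false) = O' (l.map fun i => v.getD i false)
        refine h _ ?_
        rw [List.length_map]
        change (l.length + 1) + csize C ≤ s at h1
        omega
    change crun O C (v ++ [g.val O v]) = crun O' C (v ++ [g.val O' v])
    rw [h2]
    exact ih _ (by omega)

theorem pf_LOH (_h1 : T_ALG) : T_LOH := by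
  intro k n s O O' L h
  unfold Has
  refine exists_congr fun C => exists_congr fun t => and_congr_right fun hC =>
    and_congr_right fun _ => forall_congr' fun x => imp_congr_right fun _ => ?_
  have e : Pool.Agent.H75.OM.Acc k t O C x = Pool.Agent.H75.OM.Acc k t O' C x := by
    unfold Pool.Agent.H75.OM.Acc
    congr 1
    funext ws
    unfold cout
    rw [crun_congr s O O' h C _ hC]
  rw [e]

end Pool.Agent.H17.OMN
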