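import Pool.Agent.H17.OMN.NU5

/-!
# Estimates for the error terms of a pair of formulas (NU4)
-/

set_option autoImplicit false

namespace Pool.Agent.H17.OMN

open Pool.Agent.H78.XQ Pool.Agent.H75.OM
open Pool.Agent.H6.NB (eps2)
open Pool.Agent.H13.XQ (exp_bound eighth frac_le two_pow_ge)

lemma I_pos (w₁ d₁ w₂ d₂ : ℕ) : 0 ≤ ir w₁ d₁ w₂ d₂ := by
  unfold ir
  positivity

lemma I_real (r S₂ d₂ w₂ : ℕ) (h2 : Sz2 r S₂ d₂ w₂) :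
    ir (4 ^ r ^ 2) (r + 1) w₂ d₂ ≤ (2 : ℝ) ^ (3 * r ^ 3 + 4 * r ^ 2 + 7 * r + 14) := by
  have h := I_le r S₂ d₂ w₂ h2
  have h' : (((128 * 4 ^ r ^ 2) ^ (r + 1 + 1) * (128 * w₂) ^ (d₂ + 1) : ℕ) : ℝ) ≤
      ((2 ^ (3 * r ^ 3 + 4 * r ^ 2 + 7 * r + 14) : ℕ) : ℝ) := by exact_mod_cast h
  unfold ir
  push_cast at h' ⊢
  exact h'

lemma w_real (r S₂ d₂ w₂ : ℕ) (hr : 20 ≤ r) (h2 : Sz2 r S₂ d₂ w₂) :
    ((4 ^ r ^ 2 : ℕ) : ℝ) + w₂ ≤ (2 : ℝ) ^ r ^ 3 := by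
  have h := w_le r S₂ d₂ w₂ hr h2
  have h' : (((4 ^ r ^ 2 + w₂ : ℕ)) : ℝ) ≤ ((2 ^ r ^ 3 : ℕ) : ℝ) := by exact_mod_cast h
  push_cast at h' ⊢
  exact h'

lemma Iw_le (r S₂ d₂ w₂ : ℕ) (hr : 20 ≤ r) (h2 : Sz2 r S₂ d₂ w₂) :
    ir (4 ^ r ^ 2) (r + 1) w₂ d₂ ^ 2 * (((4 ^ r ^ 2 : ℕ) : ℝ) + w₂) ^ 2 ≤
      (2 : ℝ) ^ (8 * r ^ 3 + 8 * r ^ 2 + 14 * r + 28) := by
  have h1 := I_real r S₂ d₂ w₂ h2
  have h3 := w_real r S₂ d₂ w₂ hr h2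
  have h4 := I_pos (4 ^ r ^ 2) (r + 1) w₂ d₂
  calc ir (4 ^ r ^ 2) (r + 1) w₂ d₂ ^ 2 * (((4 ^ r ^ 2 : ℕ) : ℝ) + w₂) ^ 2
      ≤ ((2 : ℝ) ^ (3 * r ^ 3 + 4 * r ^ 2 + 7 * r + 14)) ^ 2 * ((2 : ℝ) ^ r ^ 3) ^ 2 := by
        refine mul_le_mul (pow_le_pow_left₀ h4 h1 2) (pow_le_pow_left₀ (by positivity) h3 2)
          (by positivity) (by positivity)
    _ = (2 : ℝ) ^ (8 * r ^ 3 + 8 * r ^ 2 + 14 * r + 28) := by
        rw [← pow_mul, ← pow_mul, ← pow_add]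
        congr 1
        ring

lemma sqrt_q (l q : ℕ) (hq : q = 10 * l + 100) : √((2 : ℝ) ^ q) = 2 ^ (5 * l + 50) := by
  rw [hq, show 10 * l + 100 = (5 * l + 50) + (5 * l + 50) by ring, pow_add]
  exact Real.sqrt_mul_self (by positivity)

/-- a quotient which is small -/
lemma frac8 (A : ℝ) (B m r : ℕ) (h : A ≤ 2 ^ B) (hB : B + (3 * r + 3) ≤ m) :
    A / 2 ^ m ≤ (1 / 8) ^ r / 8 := by
  rw [e18, div_le_iff₀ (by positivity)]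
  calc A ≤ 2 ^ B := h
    _ = (1 / 2) ^ (3 * r + 3) * 2 ^ (B + (3 * r + 3)) := by
        rw [pow_add]
        have : (1 / 2 : ℝ) ^ (3 * r + 3) * 2 ^ (3 * r + 3) = 1 := by
          rw [← mul_pow]
          norm_num
        linear_combination -(2 : ℝ) ^ B * this
    _ ≤ (1 / 2) ^ (3 * r + 3) * 2 ^ m :=
        mul_le_mul_of_nonneg_left (pow_le_pow_right₀ (by norm_num) hB) (by positivity)

lemma two_half (a b c : ℕ) (h : a + c ≤ b) : (2 : ℝ) ^ a * (1 / 2) ^ b ≤ (1 / 2) ^ c := by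
  calc (2 : ℝ) ^ a * (1 / 2) ^ b ≤ 2 ^ a * (1 / 2) ^ (a + c) :=
        mul_le_mul_of_nonneg_left (pow_le_pow_of_le_one (by norm_num) (by norm_num) h)
          (by positivity)
    _ = (1 / 2) ^ c := by
        rw [pow_add, ← mul_assoc, ← mul_pow]
        norm_num

lemma comb (a l b q : ℕ) (y : ℝ) :
    (2 : ℝ) ^ a * (2 ^ (2 * l) * (2 ^ (2 * b) * ((2 * 2 ^ q) ^ 2 * (2 * y)))) =
      2 ^ (a + 2 * l + 2 * b + 2 * (1 + q) + 1) * y := by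
  have e : (2 : ℝ) ^ (a + 2 * l + 2 * b + 2 * (1 + q) + 1) =
      2 ^ a * 2 ^ (2 * l) * 2 ^ (2 * b) * (2 ^ q) ^ 2 * 8 := by
    rw [show a + 2 * l + 2 * b + 2 * (1 + q) + 1 = a + 2 * l + 2 * b + q * 2 + 3 by ring,
      pow_add _ _ 3, pow_add _ _ (q * 2), pow_add _ _ (2 * b), pow_add, pow_mul 2 q 2]
    norm_num
  rw [e]
  ring

lemma num_aux (r l q a : ℕ) (hr : 20 ≤ r) (hl' : l ≤ 16 * (r + 1) ^ 3)
    (hq : q = 10 * l + 100) :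
    a + 2 * l + 2 * (3 * r ^ 3 + 4 * r ^ 2 + 7 * r + 14) + 2 * (1 + q) + 1 + (3 * r + 5) ≤
      a + 500 * (r + 1) ^ 3 := by
  obtain ⟨hr3, hr2⟩ := cube_facts r hr
  have e : (r + 1) ^ 3 = r ^ 3 + 3 * r ^ 2 + 3 * r + 1 := by ring
  rw [e] at hl' ⊢
  omega

theorem pf_NU4 : T_NU4 := by
  intro r l q R n S₂ d₂ w₂ hS h2 w e I hw he hI
  subst hw he hI
  have hr := hS.r_ge
  have hE := e_le r S₂ d₂ w₂ hr h2
  have hIw := Iw_le r S₂ d₂ w₂ hr h2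
  have hI1 := I_real r S₂ d₂ w₂ h2
  have hI0 := I_pos (4 ^ r ^ 2) (r + 1) w₂ d₂
  obtain ⟨-, hl, hl', hq, -, -⟩ := hS
  obtain ⟨hr3, hr2⟩ := cube_facts r hr
  have hl1 : 2 * r + 100 ≤ l := by omega
  have hsq := sqrt_q l q hq
  generalize er (2 ^ 2 ^ r ^ 2) (r + 1) (4 ^ r ^ 2) + er S₂ d₂ w₂ = e at *
  generalize ir (4 ^ r ^ 2) (r + 1) w₂ d₂ = I at *
  generalize ((4 ^ r ^ 2 : ℕ) : ℝ) + w₂ = w at *
  rw [hsq]
  refine ⟨?_, ?_, ?_, ?_⟩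
  · refine hIw.trans (pow_le_pow_right₀ (by norm_num) (by omega))
  · rw [← mul_div_assoc]
    refine frac8 _ (2 * l + (8 * r ^ 3 + 8 * r ^ 2 + 14 * r + 28)) _ _ ?_ (by omega)
    rw [pow_add]
    exact mul_le_mul_of_nonneg_left hIw (by positivity)
  · have t1 : (2 : ℝ) ^ (2 * 2 ^ r) * (2 ^ (2 * l) * (I ^ 2 * ((2 * 2 ^ q) ^ 2 * e))) ≤
        (1 / 2) ^ (3 * r + 5) := by
      have h3 : I ^ 2 ≤ (2 : ℝ) ^ (2 * (3 * r ^ 3 + 4 * r ^ 2 + 7 * r + 14)) := by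
        calc I ^ 2 ≤ ((2 : ℝ) ^ (3 * r ^ 3 + 4 * r ^ 2 + 7 * r + 14)) ^ 2 :=
              pow_le_pow_left₀ hI0 hI1 2
          _ = _ := by rw [← pow_mul, mul_comm]
      calc (2 : ℝ) ^ (2 * 2 ^ r) * (2 ^ (2 * l) * (I ^ 2 * ((2 * 2 ^ q) ^ 2 * e)))
          ≤ (2 : ℝ) ^ (2 * 2 ^ r) * (2 ^ (2 * l) *
              ((2 : ℝ) ^ (2 * (3 * r ^ 3 + 4 * r ^ 2 + 7 * r + 14)) * ((2 * 2 ^ q) ^ 2 *
                (2 * (1 / 2) ^ (2 * 2 ^ r + 500 * (r + 1) ^ 3))))) := by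
            refine mul_le_mul_of_nonneg_left (mul_le_mul_of_nonneg_left ?_ (by positivity))
              (by positivity)
            calc I ^ 2 * ((2 * 2 ^ q) ^ 2 * e) ≤ I ^ 2 * ((2 * 2 ^ q) ^ 2 *
                  (2 * (1 / 2) ^ (2 * 2 ^ r + 500 * (r + 1) ^ 3))) := by
                  refine mul_le_mul_of_nonneg_left (mul_le_mul_of_nonneg_left hE
                    (by positivity)) (by positivity)
              _ ≤ _ := mul_le_mul_of_nonneg_right h3 (by positivity)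
        _ = (2 : ℝ) ^ (2 * 2 ^ r + 2 * l + 2 * (3 * r ^ 3 + 4 * r ^ 2 + 7 * r + 14) +
              2 * (1 + q) + 1) * (1 / 2) ^ (2 * 2 ^ r + 500 * (r + 1) ^ 3) := by
            exact comb _ _ _ _ _
        _ ≤ (1 / 2) ^ (3 * r + 5) := two_half _ _ _ (num_aux r l q _ hr hl' hq)
    have t2 : (2 : ℝ) ^ (2 * 2 ^ r) * (2 ^ (2 * l) * (1 / 2 ^ 2 ^ (q - 2))) ≤
        (1 / 2) ^ (3 * r + 5) := by
      have h3 : 2 * 2 ^ r + 2 * l + (3 * r + 5) ≤ 2 ^ (q - 2) := by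
        have a1 : 2 ^ r ≤ 2 ^ l := Nat.pow_le_pow_right (by norm_num) (by omega)
        have a2 := Nat.lt_two_pow_self (n := l)
        have a3 : 2 ^ (l + 4) ≤ 2 ^ (q - 2) := Nat.pow_le_pow_right (by norm_num) (by omega)
        rw [pow_add] at a3
        omega
      calc (2 : ℝ) ^ (2 * 2 ^ r) * (2 ^ (2 * l) * (1 / 2 ^ 2 ^ (q - 2)))
          = 2 ^ (2 * 2 ^ r + 2 * l) * (1 / 2) ^ 2 ^ (q - 2) := by
            rw [pow_add, one_div_pow]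
            ring
        _ ≤ _ := two_half _ _ _ h3
    have t3 : (2 : ℝ) ^ (2 * 2 ^ r) * Real.exp (-((2 : ℝ) ^ (2 * l) * eps2 q ^ 2 / 64)) ≤
        (1 / 2) ^ (3 * r + 5) := by
      refine exp_bound _ _ _ ?_
      set k := l / 8 with hk
      have hk1 : 8 * k ≤ l := Nat.mul_div_le l 8
      have hk2 : l < 8 * (k + 1) := by omega
      have hl2 : l ≤ 2 ^ (3 + k) := by
        have := Nat.lt_two_pow_self (n := k)
        rw [pow_add]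
        omega
      have hq2 : q + 3 ≤ 2 ^ (7 + k) := by
        have : q + 3 ≤ 16 * l := by omega
        calc q + 3 ≤ 2 ^ 4 * l := this
          _ ≤ 2 ^ 4 * 2 ^ (3 + k) := Nat.mul_le_mul_left _ hl2
          _ = 2 ^ (7 + k) := by rw [← pow_add]; congr 1; ring
      have h3 : 2 * 2 ^ r + (3 * r + 5) ≤ 2 ^ l := by
        calc 2 * 2 ^ r + (3 * r + 5) ≤ 2 ^ (r + 3) := by
              rw [pow_add]
              have := two_pow_ge r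
              omega
          _ ≤ 2 ^ l := Nat.pow_le_pow_right (by norm_num) (by omega)
      have hq3 : ((q : ℝ) + 3) ≤ 2 ^ (7 + k) := by exact_mod_cast hq2
      have h4 : (2 : ℝ) ^ l ≤ 2 ^ (2 * l) * eps2 q ^ 2 / 64 := by
        have h5 : eps2 q ^ 2 = 1 / (64 * ((q : ℝ) + 3) ^ 2) := by
          unfold eps2
          rw [one_div_pow, mul_pow]
          norm_num
        rw [h5]
        have h6 : ((q : ℝ) + 3) ^ 2 ≤ 2 ^ (14 + 2 * k) := by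
          calc ((q : ℝ) + 3) ^ 2 ≤ (2 ^ (7 + k)) ^ 2 := pow_le_pow_left₀ (by positivity) hq3 2
            _ = 2 ^ (14 + 2 * k) := by rw [← pow_mul]; congr 1; ring
        have h7 : (2 : ℝ) ^ (2 * l) * (1 / (64 * ((q : ℝ) + 3) ^ 2)) / 64 =
            2 ^ (2 * l) / (2 ^ 12 * ((q : ℝ) + 3) ^ 2) := by
          field_simp
          norm_num
        rw [h7, le_div_iff₀ (by positivity)]
        calc (2 : ℝ) ^ l * (2 ^ 12 * ((q : ℝ) + 3) ^ 2)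
            ≤ 2 ^ l * (2 ^ 12 * 2 ^ (14 + 2 * k)) := by gcongr
          _ = 2 ^ (l + (12 + (14 + 2 * k))) := by rw [← pow_add, ← pow_add]
          _ ≤ 2 ^ (2 * l) := pow_le_pow_right₀ (by norm_num) (by omega)
      refine le_trans ?_ h4
      exact_mod_cast h3
    have e1 : (1 / 8 : ℝ) ^ r / 8 = 4 * (1 / 2) ^ (3 * r + 5) := by
      rw [e18, show 3 * r + 5 = (3 * r + 3) + 2 by ring, pow_add _ _ 2]
      ring
    have hp : (0 : ℝ) < (1 / 2) ^ (3 * r + 5) := by positivity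
    rw [e1]
    calc (2 : ℝ) ^ (2 * 2 ^ r) * ((2 : ℝ) ^ (2 * l) * (I ^ 2 * ((2 * 2 ^ q) ^ 2 * e) +
          1 / 2 ^ 2 ^ (q - 2)) + Real.exp (-((2 : ℝ) ^ (2 * l) * eps2 q ^ 2 / 64)))
        = (2 : ℝ) ^ (2 * 2 ^ r) * (2 ^ (2 * l) * (I ^ 2 * ((2 * 2 ^ q) ^ 2 * e))) +
          (2 : ℝ) ^ (2 * 2 ^ r) * (2 ^ (2 * l) * (1 / 2 ^ 2 ^ (q - 2))) +
          (2 : ℝ) ^ (2 * 2 ^ r) * Real.exp (-((2 : ℝ) ^ (2 * l) * eps2 q ^ 2 / 64)) := by ring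
      _ ≤ (1 / 2) ^ (3 * r + 5) + (1 / 2) ^ (3 * r + 5) + (1 / 2) ^ (3 * r + 5) :=
          add_le_add (add_le_add t1 t2) t3
      _ ≤ 4 * (1 / 2) ^ (3 * r + 5) := by linarith
  · rw [eighth]
    refine exp_bound _ _ _ ?_
    have e1 : (2 : ℝ) ^ (2 * l) * (1 / 2 ^ l) / 2 = ((2 ^ (l - 1) : ℕ) : ℝ) := by
      obtain ⟨k, rfl⟩ : ∃ k, l = k + 1 := ⟨l - 1, by omega⟩
      rw [Nat.add_sub_cancel]
      push_cast
      rw [show 2 * (k + 1) = (k + 1) + (k + 1) by ring, pow_add]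
      field_simp
      ring
    rw [e1]
    have h2 : 2 * 2 ^ r + (3 * r + 4) ≤ 2 ^ (l - 1) := by
      calc 2 * 2 ^ r + (3 * r + 4) ≤ 2 ^ (r + 3) := by
            rw [pow_add]
            have := two_pow_ge r
            omega
        _ ≤ 2 ^ (l - 1) := Nat.pow_le_pow_right (by norm_num) (by omega)
    exact_mod_cast h2

end Pool.Agent.H17.OMN
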