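import Pool.Agent.H75.OM.TA
import Pool.Agent.H13.XQ.NUX

/-!
# Estimates for the error terms of a pair of formulas (NU5)
-/

set_option autoImplicit false

namespace Pool.Agent.H17.OMN

open Pool.Agent.H78.XQ Pool.Agent.H75.OM
open Pool.Agent.H13.XQ (exp_bound eighth frac_le two_pow_ge)

lemma e18 (r : ℕ) : (1 / 8 : ℝ) ^ r / 8 = (1 / 2) ^ (3 * r + 3) := by
  rw [pow_add, pow_mul]
  norm_num
  ring

lemma small_le (r : ℕ) : 3 * r + 5 ≤ 500 * (r + 1) ^ 3 := by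
  have := Nat.le_self_pow (show 3 ≠ 0 by norm_num) (r + 1)
  omega

lemma cancel_pow (a b : ℕ) : (2 : ℝ) ^ a * (2 * (1 / 2) ^ (a + b)) = 2 * (1 / 2) ^ b := by
  have : (2 : ℝ) ^ a * (1 / 2) ^ a = 1 := by
    rw [← mul_pow]
    norm_num
  rw [pow_add]
  linear_combination 2 * (1 / 2) ^ b * this

lemma cube_facts (r : ℕ) (hr : 20 ≤ r) : 20 * r ^ 2 ≤ r ^ 3 ∧ 20 * r ≤ r ^ 2 := by
  constructor
  · rw [pow_succ r 2, mul_comm (r ^ 2) r]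
    exact Nat.mul_le_mul_right _ hr
  · rw [pow_two]
    exact Nat.mul_le_mul_right _ hr

/-- the inverse rate, as a natural number -/
lemma I_le (r S₂ d₂ w₂ : ℕ) (h2 : Sz2 r S₂ d₂ w₂) :
    (128 * 4 ^ r ^ 2) ^ (r + 1 + 1) * (128 * w₂) ^ (d₂ + 1) ≤
      2 ^ (3 * r ^ 3 + 4 * r ^ 2 + 7 * r + 14) := by
  have hw2 : 4 ^ r ^ 2 = 2 ^ (2 * r ^ 2) := by
    rw [pow_mul]
    norm_num
  have h128 : (128 * 4 ^ r ^ 2) ^ (r + 1 + 1) = 2 ^ ((7 + 2 * r ^ 2) * (r + 2)) := by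
    rw [hw2, show 128 = 2 ^ 7 by norm_num, ← pow_add, ← pow_mul]
  calc (128 * 4 ^ r ^ 2) ^ (r + 1 + 1) * (128 * w₂) ^ (d₂ + 1)
      ≤ 2 ^ ((7 + 2 * r ^ 2) * (r + 2)) * 2 ^ r ^ 3 := by
        rw [h128]
        exact Nat.mul_le_mul_left _ h2.rate
    _ = 2 ^ (3 * r ^ 3 + 4 * r ^ 2 + 7 * r + 14) := by
        rw [← pow_add]
        congr 1
        ring

/-- the sum of the two widths -/
lemma w_le (r S₂ d₂ w₂ : ℕ) (hr : 20 ≤ r) (h2 : Sz2 r S₂ d₂ w₂) :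
    4 ^ r ^ 2 + w₂ ≤ 2 ^ r ^ 3 := by
  obtain ⟨hr3, hr2⟩ := cube_facts r hr
  have h1 : 128 * w₂ ≤ 2 ^ r ^ 3 := by
    refine le_trans ?_ h2.rate
    exact Nat.le_self_pow (Nat.succ_ne_zero _) _
  have h3 : 2 * 4 ^ r ^ 2 ≤ 2 ^ r ^ 3 := by
    rw [show 4 ^ r ^ 2 = 2 ^ (2 * r ^ 2) by rw [pow_mul]; norm_num, ← pow_succ']
    exact Nat.pow_le_pow_right (by norm_num) (by omega)
  omega

/-- the sum of the two failure probabilities -/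
lemma e_le (r S₂ d₂ w₂ : ℕ) (hr : 20 ≤ r) (h2 : Sz2 r S₂ d₂ w₂) :
    er (2 ^ 2 ^ r ^ 2) (r + 1) (4 ^ r ^ 2) + er S₂ d₂ w₂ ≤
      2 * (1 / 2) ^ (2 * 2 ^ r + 500 * (r + 1) ^ 3) := by
  obtain ⟨hr3, hr2⟩ := cube_facts r hr
  set K := 2 * 2 ^ r + 500 * (r + 1) ^ 3 with hK
  have gen : ∀ A m : ℕ, A * 2 ^ K ≤ 2 ^ m → (A : ℝ) / 2 ^ m ≤ (1 / 2) ^ K := by
    intro A m h
    rw [div_le_iff₀ (by positivity)]
    have h1 : (A : ℝ) * 2 ^ K ≤ 2 ^ m := by exact_mod_cast h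
    calc (A : ℝ) = (1 / 2) ^ K * (A * 2 ^ K) := by
          rw [mul_comm (A : ℝ), ← mul_assoc, ← mul_pow]
          norm_num
      _ ≤ (1 / 2) ^ K * 2 ^ m := mul_le_mul_of_nonneg_left h1 (by positivity)
  have p2 : er S₂ d₂ w₂ ≤ (1 / 2) ^ K := by
    have := gen ((S₂ + 1) ^ (d₂ + 1)) w₂ h2.err
    push_cast at this
    exact this
  have p1 : er (2 ^ 2 ^ r ^ 2) (r + 1) (4 ^ r ^ 2) ≤ (1 / 2) ^ K := by
    have h := gen ((2 ^ 2 ^ r ^ 2 + 1) ^ (r + 1 + 1)) (4 ^ r ^ 2) ?_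
    · unfold er
      push_cast at h ⊢
      exact h
    · set x : ℕ := 2 ^ r ^ 2 with hx
      have hx4 : 4 ^ r ^ 2 = x * x := by
        rw [hx, ← pow_add, ← two_mul, pow_mul]
        norm_num
      have hxr : 32 * 2 ^ r ≤ x := by
        rw [hx, show (32 : ℕ) = 2 ^ 5 by norm_num, ← pow_add]
        exact Nat.pow_le_pow_right (by norm_num) (by omega)
      have hx1 : 1 ≤ x := Nat.one_le_two_pow
      have hrr := Nat.lt_two_pow_self (n := r)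
      have hc : 500 * (r + 1) ^ 3 ≤ x := by
        calc 500 * (r + 1) ^ 3 ≤ 2 ^ 9 * (2 ^ r) ^ 3 :=
              Nat.mul_le_mul (by norm_num) (Nat.pow_le_pow_left hrr 3)
          _ = 2 ^ (9 + r * 3) := by rw [← pow_mul, ← pow_add]
          _ ≤ x := Nat.pow_le_pow_right (by norm_num) (by omega)
      have hx2 : 2 ^ x + 1 ≤ 2 ^ (x + 1) := by
        rw [pow_succ]
        have : 1 ≤ 2 ^ x := Nat.one_le_two_pow
        omega
      calc (2 ^ x + 1) ^ (r + 1 + 1) * 2 ^ K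
          ≤ (2 ^ (x + 1)) ^ (r + 1 + 1) * 2 ^ K :=
            Nat.mul_le_mul_right _ (Nat.pow_le_pow_left hx2 _)
        _ = 2 ^ ((x + 1) * (r + 1 + 1) + K) := by rw [← pow_mul, ← pow_add]
        _ ≤ 2 ^ 4 ^ r ^ 2 := by
            refine Nat.pow_le_pow_right (by norm_num) ?_
            rw [hx4]
            have h5 : x * (32 * 2 ^ r) ≤ x * x := Nat.mul_le_mul_left _ hxr
            have h6 : x * (r + 1) ≤ x * 2 ^ r := Nat.mul_le_mul_left _ hrr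
            have h7 : 1 * 2 ^ r ≤ x * 2 ^ r := Nat.mul_le_mul_right _ hx1
            have h8 : x * 1 ≤ x * 2 ^ r := Nat.mul_le_mul_left _ Nat.one_le_two_pow
            nlinarith
  linarith

/-- `(12 w R / 2^l + 4 w² / 2^n) I` -/
lemma nu5a (r l q R n S₂ d₂ w₂ : ℕ) (hS : Sz r l q R n) (h2 : Sz2 r S₂ d₂ w₂) :
    (12 * (((4 ^ r ^ 2 : ℕ) : ℝ) + w₂) * (R / 2 ^ l) +
      4 * (((4 ^ r ^ 2 : ℕ) : ℝ) + w₂) ^ 2 / 2 ^ n) * ir (4 ^ r ^ 2) (r + 1) w₂ d₂ ≤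
      (1 / 8) ^ r / 8 := by
  have hI := I_le r S₂ d₂ w₂ h2
  have hw := w_le r S₂ d₂ w₂ hS.r_ge h2
  obtain ⟨hr, hl, -, hq, hR, hn⟩ := hS
  obtain ⟨hr3, hr2⟩ := cube_facts r hr
  set J : ℕ := (128 * 4 ^ r ^ 2) ^ (r + 1 + 1) * (128 * w₂) ^ (d₂ + 1) with hJ
  set w : ℕ := 4 ^ r ^ 2 + w₂ with hwd
  have hR1 : 1 ≤ R := by
    rw [hR]
    have : 0 < (q + 3) ^ 2 := by positivity
    have : 0 < 512 * (q + 3) ^ 2 * l := by
      apply Nat.mul_pos (Nat.mul_pos (by norm_num) this)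
      omega
    omega
  have hnl : 2 * l + 3 * q ≤ n := by
    rw [hn]
    exact Nat.le_mul_of_pos_left _ hR1
  have t1 : (((12 * w * R) * J : ℕ) : ℝ) / 2 ^ l ≤ (1 / 8) ^ r / 16 := by
    refine frac_le _ _ _ ?_
    set k := l / 8 with hk
    have hk1 : 8 * k ≤ l := Nat.mul_div_le l 8
    have hk2 : l < 8 * (k + 1) := by omega
    have hl2 : l ≤ 2 ^ (3 + k) := by
      have := Nat.lt_two_pow_self (n := k)
      rw [pow_add]
      omega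
    have hq2 : q + 3 ≤ 2 ^ (7 + k) := by
      have : q + 3 ≤ 16 * l := by omega
      calc q + 3 ≤ 2 ^ 4 * l := this
        _ ≤ 2 ^ 4 * 2 ^ (3 + k) := Nat.mul_le_mul_left _ hl2
        _ = 2 ^ (7 + k) := by rw [← pow_add]; congr 1; ring
    have hR2 : R ≤ 2 ^ (26 + 3 * k) := by
      rw [hR]
      calc 512 * (q + 3) ^ 2 * l ≤ 2 ^ 9 * (2 ^ (7 + k)) ^ 2 * 2 ^ (3 + k) :=
            Nat.mul_le_mul (Nat.mul_le_mul_left _ (Nat.pow_le_pow_left hq2 2)) hl2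
        _ = 2 ^ (26 + 3 * k) := by rw [← pow_mul, ← pow_add, ← pow_add]; congr 1; ring
    have hE : 4 + r ^ 3 + (26 + 3 * k) + (3 * r ^ 3 + 4 * r ^ 2 + 7 * r + 14) +
        (3 * r + 4) ≤ l := by omega
    calc 12 * w * R * J * 2 ^ (3 * r + 4)
        ≤ 2 ^ 4 * 2 ^ r ^ 3 * 2 ^ (26 + 3 * k) * 2 ^ (3 * r ^ 3 + 4 * r ^ 2 + 7 * r + 14) *
            2 ^ (3 * r + 4) := by
          refine Nat.mul_le_mul_right _ (Nat.mul_le_mul (Nat.mul_le_mul (Nat.mul_le_mul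
            (by norm_num) hw) hR2) hI)
      _ = 2 ^ (4 + r ^ 3 + (26 + 3 * k) + (3 * r ^ 3 + 4 * r ^ 2 + 7 * r + 14) +
            (3 * r + 4)) := by
          simp only [pow_add]
      _ ≤ 2 ^ l := Nat.pow_le_pow_right (by norm_num) hE
  have t2 : (((4 * w ^ 2) * J : ℕ) : ℝ) / 2 ^ n ≤ (1 / 8) ^ r / 16 := by
    refine frac_le _ _ _ ?_
    calc 4 * w ^ 2 * J * 2 ^ (3 * r + 4)
        ≤ 2 ^ 2 * (2 ^ r ^ 3) ^ 2 * 2 ^ (3 * r ^ 3 + 4 * r ^ 2 + 7 * r + 14) *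
            2 ^ (3 * r + 4) :=
          Nat.mul_le_mul_right _ (Nat.mul_le_mul (Nat.mul_le_mul
            (by norm_num) (Nat.pow_le_pow_left hw 2)) hI)
      _ = 2 ^ (2 + r ^ 3 * 2 + (3 * r ^ 3 + 4 * r ^ 2 + 7 * r + 14) + (3 * r + 4)) := by
          rw [← pow_mul]
          simp only [pow_add]
      _ ≤ 2 ^ n := Nat.pow_le_pow_right (by norm_num) (by omega)
  have e : (12 * (((4 ^ r ^ 2 : ℕ) : ℝ) + w₂) * (R / 2 ^ l) +
      4 * (((4 ^ r ^ 2 : ℕ) : ℝ) + w₂) ^ 2 / 2 ^ n) * ir (4 ^ r ^ 2) (r + 1) w₂ d₂ =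
      (((12 * w * R) * J : ℕ) : ℝ) / 2 ^ l + (((4 * w ^ 2) * J : ℕ) : ℝ) / 2 ^ n := by
    rw [hJ, hwd]
    unfold ir
    push_cast
    ring
  rw [e]
  linarith

theorem pf_NU5 : T_NU5 := by
  intro r l q R n S₂ d₂ w₂ hS h2 w e I hw he hI
  subst hw he hI
  refine ⟨nu5a r l q R n S₂ d₂ w₂ hS h2, ?_⟩
  have hE := e_le r S₂ d₂ w₂ hS.r_ge h2
  obtain ⟨hr, hl, -, hq, hR, hn⟩ := hS
  obtain ⟨hr3, hr2⟩ := cube_facts r hr
  have hl1 : 2 * r + 100 ≤ l := by omega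
  have hR1 : 1 ≤ R := by
    rw [hR]
    have : 0 < (q + 3) ^ 2 := by positivity
    have : 0 < 512 * (q + 3) ^ 2 * l := by
      apply Nat.mul_pos (Nat.mul_pos (by norm_num) this)
      omega
    omega
  have hnl : 2 * l + 3 * q ≤ n := by
    rw [hn]
    exact Nat.le_mul_of_pos_left _ hR1
  set e := er (2 ^ 2 ^ r ^ 2) (r + 1) (4 ^ r ^ 2) + er S₂ d₂ w₂ with hed
  have p1 : (2 : ℝ) ^ (2 * 2 ^ r) * e ≤ (1 / 8) ^ r / 16 := by
    rw [eighth]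
    calc (2 : ℝ) ^ (2 * 2 ^ r) * e
        ≤ 2 ^ (2 * 2 ^ r) * (2 * (1 / 2) ^ (2 * 2 ^ r + 500 * (r + 1) ^ 3)) :=
          mul_le_mul_of_nonneg_left hE (by positivity)
      _ = 2 * (1 / 2) ^ (500 * (r + 1) ^ 3) := cancel_pow _ _
      _ ≤ 2 * (1 / 2) ^ (3 * r + 5) := by
          refine mul_le_mul_of_nonneg_left (pow_le_pow_of_le_one (by norm_num) (by norm_num) ?_)
            (by norm_num)
          exact small_le r
      _ = (1 / 2) ^ (3 * r + 4) := by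
          rw [show 3 * r + 5 = (3 * r + 4) + 1 by ring, pow_succ]
          ring
  have p2 : (2 : ℝ) ^ (2 * 2 ^ r) * (4 * Real.exp (-(2 ^ n * (R / 2 ^ l) ^ 2 / 4))) ≤
      (1 / 8) ^ r / 16 := by
    rw [eighth]
    have h1 := exp_bound (2 ^ n * ((R : ℝ) / 2 ^ l) ^ 2 / 4) (2 * 2 ^ r) (3 * r + 6) ?_
    · calc (2 : ℝ) ^ (2 * 2 ^ r) * (4 * Real.exp (-(2 ^ n * (R / 2 ^ l) ^ 2 / 4)))
          = 4 * ((2 : ℝ) ^ (2 * 2 ^ r) * Real.exp (-(2 ^ n * ((R : ℝ) / 2 ^ l) ^ 2 / 4))) := by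
            ring
        _ ≤ 4 * (1 / 2) ^ (3 * r + 6) := mul_le_mul_of_nonneg_left h1 (by norm_num)
        _ = (1 / 2) ^ (3 * r + 4) := by
            rw [show 3 * r + 6 = (3 * r + 4) + 2 by ring, pow_add]
            norm_num
            ring
    · have hR1' : (1 : ℝ) ≤ R := by exact_mod_cast hR1
      have h2 : 2 * 2 ^ r + (3 * r + 6) ≤ 2 ^ (n - 2 * l - 2) := by
        calc 2 * 2 ^ r + (3 * r + 6) ≤ 2 ^ (r + 3) := by
              rw [pow_add]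
              have := two_pow_ge r
              omega
          _ ≤ 2 ^ (n - 2 * l - 2) := Nat.pow_le_pow_right (by norm_num) (by omega)
      have h3 : ((2 ^ (n - 2 * l - 2) : ℕ) : ℝ) ≤ 2 ^ n * ((R : ℝ) / 2 ^ l) ^ 2 / 4 := by
        obtain ⟨m, hm⟩ : ∃ m, n = m + 2 * l + 2 := ⟨n - 2 * l - 2, by omega⟩
        rw [show n - 2 * l - 2 = m by omega, hm]
        have e2 : (2 : ℝ) ^ (m + 2 * l + 2) * ((R : ℝ) / 2 ^ l) ^ 2 / 4 = 2 ^ m * (R : ℝ) ^ 2 := by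
          rw [pow_add, pow_add, pow_mul, div_pow]
          have : ((2 : ℝ) ^ 2) ^ l = (2 ^ l) ^ 2 := by rw [← pow_mul, ← pow_mul, mul_comm]
          rw [this]
          field_simp
          norm_num
        rw [e2]
        push_cast
        have h4 : (1 : ℝ) ≤ (R : ℝ) ^ 2 := one_le_pow₀ hR1'
        have h5 : (0 : ℝ) < 2 ^ m := by positivity
        nlinarith
      exact le_trans (by exact_mod_cast h2) h3
  rw [mul_add]
  calc _ ≤ (1 / 8) ^ r / 16 + (1 / 8) ^ r / 16 := add_le_add p1 p2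
    _ = (1 / 8) ^ r / 8 := by ring

end Pool.Agent.H17.OMN
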